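import Pool.Agent.Helper58.SU.StU
import Pool.Agent.Helper42.GK.M_TUP

/-!
# Project SU, module TUPU: every tuple of eight blocks is small in mean square up to `2X^τ`, `τ < 3/5`
-/

set_option autoImplicit false

namespace Pool.Agent.Helper61.SU

open Pool.Agent.Helper58.SU
open Finset ArithmeticFunction MeasureTheory
open Pool.Agent.Helper2.MR (ch)
open Pool.Agent.Helper23.GK
open Pool.Agent.Helper63.GW
open Pool.Agent.Helper42.GK (tupR tupR_meas tupR_sub tup_int tup_le_int tup_inv_sq tup_pow tup_half)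

theorem su_PP {q : ℕ} (χ : DirichletCharacter ℂ q) (e : Fin 8 → ℕ) (t : ℝ) :
    ‖PP8 χ e t‖ ^ 2 = ∏ i, ‖bk χ i (e i) t‖ ^ 2 := by
  rw [PP8, norm_prod, Finset.prod_pow]

/-- one block bounded by `Q/t² + Y` in square, the other blocks in mean square -/
theorem su_long {q : ℕ} (χ : DirichletCharacter ℂ q) (e : Fin 8 → ℕ) (k : Fin 8)
    (hcont : ∀ (q : ℕ) (χ : DirichletCharacter ℂ q) (i : Fin 8) (e : ℕ), Continuous (bk χ i e))
    (a T Q Y W M : ℝ) (ha : 0 < a) (hT : 0 ≤ T) (hQ : 0 ≤ Q) (hY : 0 ≤ Y) (hW0 : 0 ≤ W)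
    (hδ : ∀ t, a ≤ |t| → |t| ≤ T → ‖bk χ k (e k) t‖ ^ 2 ≤ Q * (1 / t ^ 2) + Y)
    (hW : ∀ t, ∏ i ∈ univ.erase k, ‖bk χ i (e i) t‖ ^ 2 ≤ W)
    (hM : ∫ t in (-T)..T, ∏ i ∈ univ.erase k, ‖bk χ i (e i) t‖ ^ 2 ≤ M) :
    ∫ t in tupR a T, ‖PP8 χ e t‖ ^ 2 ≤ Q * W * (8 / a) + Y * M := by
  have hc : Continuous (fun t : ℝ => ∏ i ∈ univ.erase k, ‖bk χ i (e i) t‖ ^ 2) := by
    apply continuous_finsetProd
    intro i _
    exact (hcont _ _ _ _).norm.pow 2
  have hcP : Continuous (fun t : ℝ => ‖PP8 χ e t‖ ^ 2) := by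
    have : (fun t : ℝ => ‖PP8 χ e t‖ ^ 2) = fun t => ∏ i, ‖bk χ i (e i) t‖ ^ 2 :=
      funext fun t => su_PP χ e t
    rw [this]
    apply continuous_finsetProd
    intro i _
    exact (hcont _ _ _ _).norm.pow 2
  have hn : ∀ t : ℝ, 0 ≤ ∏ i ∈ univ.erase k, ‖bk χ i (e i) t‖ ^ 2 := fun t =>
    Finset.prod_nonneg (fun i _ => by positivity)
  obtain ⟨hi, hi2⟩ := tup_inv_sq a T ha
  have hI1 : IntegrableOn (fun t : ℝ => Q * W * (1 / t ^ 2)) (tupR a T) := hi.const_mul _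
  have hI2 : IntegrableOn (fun t : ℝ => Y * ∏ i ∈ univ.erase k, ‖bk χ i (e i) t‖ ^ 2)
      (tupR a T) := tup_int _ (continuous_const.mul hc) a T
  calc ∫ t in tupR a T, ‖PP8 χ e t‖ ^ 2
      ≤ ∫ t in tupR a T, (Q * W * (1 / t ^ 2) +
          Y * ∏ i ∈ univ.erase k, ‖bk χ i (e i) t‖ ^ 2) := by
        apply setIntegral_mono_on
        · exact tup_int _ hcP a T
        · exact hI1.add hI2
        · exact tupR_meas a T
        · intro t ht
          rw [su_PP, ← Finset.mul_prod_erase univ _ (mem_univ k)]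
          have h1 := hδ t ht.1 ht.2
          have h2 := hn t
          have h3 := hW t
          calc ‖bk χ k (e k) t‖ ^ 2 * ∏ i ∈ univ.erase k, ‖bk χ i (e i) t‖ ^ 2
              ≤ (Q * (1 / t ^ 2) + Y) * ∏ i ∈ univ.erase k, ‖bk χ i (e i) t‖ ^ 2 := by gcongr
            _ = Q * (1 / t ^ 2) * ∏ i ∈ univ.erase k, ‖bk χ i (e i) t‖ ^ 2 +
                Y * ∏ i ∈ univ.erase k, ‖bk χ i (e i) t‖ ^ 2 := by ring
            _ ≤ Q * (1 / t ^ 2) * W + Y * ∏ i ∈ univ.erase k, ‖bk χ i (e i) t‖ ^ 2 := by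
                gcongr
            _ = _ := by ring
    _ = Q * W * (∫ t in tupR a T, 1 / t ^ 2) +
          Y * ∫ t in tupR a T, ∏ i ∈ univ.erase k, ‖bk χ i (e i) t‖ ^ 2 := by
        rw [integral_add hI1 hI2, integral_const_mul, integral_const_mul]
    _ ≤ Q * W * (8 / a) + Y * M := by
        gcongr
        exact (tup_le_int _ hc hn a T hT).trans hM

/-- largeness conditions -/
theorem su_large (D : ℕ) (K : ℝ) : ∃ X0 : ℕ, ∀ X : ℕ, X0 ≤ X →
    K ≤ Real.log X ∧ Real.log X ^ D ≤ (X : ℝ) ^ (1 / 100 : ℝ) ∧ 1 ≤ X := by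
  have hl : Filter.Tendsto (fun X : ℕ => Real.log (X : ℝ)) Filter.atTop Filter.atTop :=
    Real.tendsto_log_atTop.comp tendsto_natCast_atTop_atTop
  have e1 : ∀ᶠ X : ℕ in Filter.atTop, K ≤ Real.log X := hl.eventually_ge_atTop K
  have e1' : ∀ᶠ X : ℕ in Filter.atTop, 1 ≤ Real.log X := hl.eventually_ge_atTop 1
  have e3 : ∀ᶠ X : ℕ in Filter.atTop, Real.log X ^ D ≤ (X : ℝ) ^ (1 / 100 : ℝ) := by
    have h := (isLittleO_log_rpow_rpow_atTop (D : ℝ) (show (0 : ℝ) < 1 / 100 by norm_num)).bound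
      (show (0 : ℝ) < 1 by norm_num)
    have h2 := (tendsto_natCast_atTop_atTop (R := ℝ)).eventually h
    filter_upwards [h2, e1'] with X hX h1
    rw [Real.rpow_natCast, Real.norm_of_nonneg (by positivity),
      Real.norm_of_nonneg (by positivity), one_mul] at hX
    exact hX
  obtain ⟨X0, h0⟩ := Filter.eventually_atTop.mp ((e1.and e3).and
    (Filter.eventually_ge_atTop 1))
  exact ⟨X0, fun X hX => ⟨(h0 X hX).1.1, (h0 X hX).1.2, (h0 X hX).2⟩⟩

/-- combinatorics of Case 2: blocks are shorter than `z` or longer than `z^40` -/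
theorem su_comb (P : Fin 8 → ℝ) (z K : ℝ) (hz : 1024 ≤ z) (hP1 : ∀ i, 1 ≤ P i)
    (hd : ∀ i, P i < z ∨ z ^ 40 < P i) (hK : ∀ i, P i ≤ K)
    (h1 : z ^ 100 ≤ 16 * ∏ i, P i) (h2 : ∏ i, P i ≤ 1024 * z ^ 100) : z ^ 45 ≤ K := by
  classical
  have hz1 : 1 ≤ z := by linarith
  have hK1 : 1 ≤ K := (hP1 0).trans (hK 0)
  set G := univ.filter (fun i : Fin 8 => z ^ 40 < P i) with hG
  have hcard : #G ≤ 2 := by
    by_contra hcon
    have h3 : 3 ≤ #G := by omega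
    have h4 : (z ^ 40) ^ 3 ≤ ∏ i, P i := by
      calc (z ^ 40) ^ 3 ≤ (z ^ 40) ^ #G := pow_le_pow_right₀ (one_le_pow₀ hz1) h3
        _ = ∏ _i ∈ G, z ^ 40 := by rw [Finset.prod_const]
        _ ≤ ∏ i ∈ G, P i := Finset.prod_le_prod (fun _ _ => by positivity)
            (fun i hi => (Finset.mem_filter.mp hi).2.le)
        _ ≤ ∏ i, P i := by
            rw [← Finset.prod_filter_mul_prod_filter_not univ (fun i : Fin 8 => z ^ 40 < P i)]
            have h8 : 1 ≤ ∏ i ∈ univ.filter (fun i : Fin 8 => ¬ z ^ 40 < P i), P i := by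
              calc (1 : ℝ) = ∏ _i ∈ univ.filter (fun i : Fin 8 => ¬ z ^ 40 < P i), (1 : ℝ) := by
                    simp
                _ ≤ _ := Finset.prod_le_prod (fun _ _ => by norm_num) (fun i _ => hP1 i)
            have h9 : 0 ≤ ∏ i ∈ G, P i := Finset.prod_nonneg (fun i _ => by linarith [hP1 i])
            exact le_mul_of_one_le_right h9 h8
    have h5 : 1024 * z ^ 100 < (z ^ 40) ^ 3 := by
      calc 1024 * z ^ 100 ≤ z * z ^ 100 := by gcongr
        _ = z ^ 101 := by ring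
        _ < z ^ 120 := pow_lt_pow_right₀ (by linarith) (by norm_num)
        _ = (z ^ 40) ^ 3 := by ring
    linarith
  have hprod : ∏ i, P i ≤ K ^ 2 * z ^ 8 := by
    rw [← Finset.prod_filter_mul_prod_filter_not univ (fun i : Fin 8 => z ^ 40 < P i)]
    have h3 : ∏ i ∈ univ.filter (fun i : Fin 8 => z ^ 40 < P i), P i ≤ K ^ 2 := by
      calc ∏ i ∈ univ.filter (fun i : Fin 8 => z ^ 40 < P i), P i
          ≤ ∏ _i ∈ univ.filter (fun i : Fin 8 => z ^ 40 < P i), K :=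
            Finset.prod_le_prod (fun i _ => by linarith [hP1 i]) (fun i _ => hK i)
        _ = K ^ #G := by rw [Finset.prod_const]
        _ ≤ K ^ 2 := pow_le_pow_right₀ hK1 hcard
    have h4 : ∏ i ∈ univ.filter (fun i : Fin 8 => ¬ z ^ 40 < P i), P i ≤ z ^ 8 := by
      calc ∏ i ∈ univ.filter (fun i : Fin 8 => ¬ z ^ 40 < P i), P i
          ≤ ∏ _i ∈ univ.filter (fun i : Fin 8 => ¬ z ^ 40 < P i), z :=
            Finset.prod_le_prod (fun i _ => by linarith [hP1 i]) (fun i hi => by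
              rcases hd i with h | h
              · exact h.le
              · exact absurd h (Finset.mem_filter.mp hi).2)
        _ = z ^ #(univ.filter (fun i : Fin 8 => ¬ z ^ 40 < P i)) := by rw [Finset.prod_const]
        _ ≤ z ^ 8 := pow_le_pow_right₀ hz1 (by
              have := Finset.card_le_univ (univ.filter (fun i : Fin 8 => ¬ z ^ 40 < P i))
              simpa using this)
    have h5 : 0 ≤ ∏ i ∈ univ.filter (fun i : Fin 8 => ¬ z ^ 40 < P i), P i :=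
      Finset.prod_nonneg (fun i _ => by linarith [hP1 i])
    gcongr
  by_contra hcon
  rw [not_le] at hcon
  have h6 : K ^ 2 < (z ^ 45) ^ 2 := by gcongr
  have h7 : z ^ 100 < z ^ 100 := by
    calc z ^ 100 ≤ 16 * ∏ i, P i := h1
      _ ≤ 16 * (K ^ 2 * z ^ 8) := by gcongr
      _ < 16 * ((z ^ 45) ^ 2 * z ^ 8) := by gcongr
      _ = 16 * z ^ 98 := by ring
      _ ≤ z * z ^ 98 := by gcongr; linarith
      _ = z ^ 99 := by ring
      _ ≤ z ^ 100 := pow_le_pow_right₀ hz1 (by norm_num)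
  exact lt_irrefl _ h7

/-- the power saving of Case 2 -/
theorem su_save (z K T : ℝ) (hz : 1024 ≤ z) (hK : z ^ 45 ≤ K) (hT0 : 0 ≤ T) (hT : T ≤ 2 * z ^ 60) :
    (1 / K + T / K ^ 2) * (16 * T * K / z ^ 100 + 1) ≤ 99 / z := by
  have hz0 : 0 < z := by linarith
  have hz1 : 1 ≤ z := by linarith
  have hK0 : 0 < K := lt_of_lt_of_le (by positivity) hK
  have e1 : (1 / K + T / K ^ 2) * (16 * T * K / z ^ 100 + 1) =
      16 * T / z ^ 100 + 1 / K + 16 * T ^ 2 / (K * z ^ 100) + T / K ^ 2 := by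
    field_simp
    ring
  rw [e1]
  have h1 : 16 * T / z ^ 100 ≤ 32 / z := by
    rw [div_le_div_iff₀ (by positivity) hz0]
    calc 16 * T * z ≤ 16 * (2 * z ^ 60) * z := by gcongr
      _ = 32 * z ^ 61 := by ring
      _ ≤ 32 * z ^ 100 := by
          have := pow_le_pow_right₀ hz1 (show 61 ≤ 100 by norm_num)
          linarith
  have h2 : 1 / K ≤ 1 / z := by
    apply one_div_le_one_div_of_le hz0
    calc z = z ^ 1 := (pow_one z).symm
      _ ≤ z ^ 45 := pow_le_pow_right₀ hz1 (by norm_num)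
      _ ≤ K := hK
  have h3 : 16 * T ^ 2 / (K * z ^ 100) ≤ 64 / z := by
    rw [div_le_div_iff₀ (by positivity) hz0]
    calc 16 * T ^ 2 * z ≤ 16 * (2 * z ^ 60) ^ 2 * z := by gcongr
      _ = 64 * z ^ 121 := by ring
      _ ≤ 64 * z ^ 145 := by
          have := pow_le_pow_right₀ hz1 (show 121 ≤ 145 by norm_num)
          linarith
      _ = 64 * (z ^ 45 * z ^ 100) := by ring
      _ ≤ 64 * (K * z ^ 100) := by gcongr
  have h4 : T / K ^ 2 ≤ 2 / z := by
    rw [div_le_div_iff₀ (by positivity) hz0]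
    calc T * z ≤ 2 * z ^ 60 * z := by gcongr
      _ = 2 * z ^ 61 := by ring
      _ ≤ 2 * z ^ 90 := by
          have := pow_le_pow_right₀ hz1 (show 61 ≤ 90 by norm_num)
          linarith
      _ = 2 * (z ^ 45) ^ 2 := by ring
      _ ≤ 2 * K ^ 2 := by gcongr
  have e2 : 99 / z = 32 / z + 1 / z + 64 / z + 2 / z := by ring
  rw [e2]
  linarith

theorem su_sq3 {x y w a b c : ℝ} (h1 : x ^ 2 ≤ a) (h2 : y ^ 2 = b) (h3 : w ^ 2 ≤ c) :
    (x + y + w) ^ 2 ≤ 3 * (a + b + c) := by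
  nlinarith [sq_nonneg (x - y), sq_nonneg (x - w), sq_nonneg (y - w)]

theorem su_sum {s l L : ℝ} (hL : 1024 ≤ L) (h0 : 0.69 * s ≤ s * l) (hl : l ≤ 0.7)
    (h : s * l ≤ 10 * l + L) : 1 + s ≤ L ^ 2 := by
  have h1 : s ≤ 2 * L + 20 := by linarith
  nlinarith

theorem su_inv {t : ℝ} (ht : 1 ≤ |t|) : (1 / t ^ 2) ^ 2 ≤ 1 / t ^ 2 := by
  have ht2 : 1 ≤ t ^ 2 := by
    rw [← sq_abs]
    exact one_le_pow₀ ht
  rw [div_pow, one_pow]
  apply one_div_le_one_div_of_le (by positivity)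
  exact le_self_pow₀ ht2 (by norm_num)

theorem hTUPU (h1 : StMea8) (h2 : StBkt) (h3 : StBks) (h4 : StBkb) : StTupu := by
  intro τ0 hτ0 A B
  obtain ⟨C, hC⟩ := h1
  obtain ⟨C3, hC3, h3⟩ := h3
  obtain ⟨-, -, hcont, hbd⟩ := h4
  obtain ⟨τ, hτ, hτ0τ, hτ2⟩ : ∃ τ : ℝ, τ < 3 / 5 ∧ τ0 ≤ τ ∧ 1 / 2 ≤ τ :=
    ⟨max τ0 (1 / 2), max_lt hτ0 (by norm_num), le_max_left _ _, le_max_right _ _⟩
  obtain ⟨A1, hA1⟩ : ∃ A1 : ℕ, A1 = A + 2 * C + 10 := ⟨_, rfl⟩
  obtain ⟨B1', X1, h2⟩ := h2 A1 B (1 / 100) (by norm_num)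
  obtain ⟨B1, hB1⟩ : ∃ B1 : ℕ, B1 = B1' + 1 + A + 4 * B + 80 := ⟨_, rfl⟩
  obtain ⟨X3, hX3⟩ := su_large (A + 4 * B + 2 * C + 20) (1024 + C + C3)
  refine ⟨B1, X1 + X3, ?_⟩
  intro X hX q _ χ e hq he hs1 hs2
  obtain ⟨hL0, hLz, hX1⟩ := hX3 X (by omega)
  set L := Real.log X with hLdef
  have hCn : (0 : ℝ) ≤ C := Nat.cast_nonneg _
  have hL9 : 1024 ≤ L := by linarith
  have hL1 : 1 ≤ L := by linarith
  have hLC : (C : ℝ) ≤ L := by linarith
  have hLC3 : C3 ≤ L := by linarith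
  have hX1' : (1 : ℝ) ≤ X := by exact_mod_cast hX1
  have hXp : (0 : ℝ) < X := by linarith
  set z : ℝ := (X : ℝ) ^ (1 / 100 : ℝ) with hz
  have hz0 : 0 < z := Real.rpow_pos_of_pos hXp _
  have hzL : L ≤ z := by
    refine le_trans ?_ hLz
    calc L = L ^ 1 := (pow_one L).symm
      _ ≤ L ^ (A + 4 * B + 2 * C + 20) := pow_le_pow_right₀ hL1 (by omega)
  have hz1024 : 1024 ≤ z := hL9.trans hzL
  have hz1 : 1 ≤ z := by linarith
  have hzp : ∀ n : ℕ, z ^ n = (X : ℝ) ^ ((n : ℝ) / 100) := by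
    intro n
    rw [hz, ← Real.rpow_natCast, ← Real.rpow_mul hXp.le]
    congr 1
    ring
  have hzX : z ^ 100 = X := by
    rw [hzp]
    norm_num
  have hq1 : (1 : ℝ) ≤ q := by exact_mod_cast (Nat.pos_of_ne_zero (NeZero.ne q))
  have hsum0 : (0 : ℝ) ≤ ∑ i, (e i : ℝ) := Finset.sum_nonneg (fun i _ => Nat.cast_nonneg _)
  have hsum : 1 + ∑ i, (e i : ℝ) ≤ L ^ 2 := by
    have ha : ((2 : ℝ) ^ (∑ i, e i)) ≤ 1024 * X := by exact_mod_cast hs2
    have hb := Real.log_le_log (by positivity) ha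
    rw [Real.log_pow, Real.log_mul (by norm_num) hXp.ne'] at hb
    have hc6 : Real.log 1024 = 10 * Real.log 2 := by
      rw [show (1024 : ℝ) = 2 ^ 10 by norm_num, Real.log_pow]
      norm_num
    rw [hc6] at hb
    have hd := Real.log_two_gt_d9
    have he := Real.log_two_lt_d9
    push_cast at hb
    have hf : (0.69 : ℝ) * ∑ i, (e i : ℝ) ≤ (∑ i, (e i : ℝ)) * Real.log 2 := by
      rw [mul_comm]
      gcongr
      linarith
    exact su_sum hL9 hf (by linarith) hb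
  have hei : ∀ i, 1 + (e i : ℝ) ≤ L ^ 2 := fun i => by
    have := Finset.single_le_sum (f := fun i => (e i : ℝ)) (fun i _ => Nat.cast_nonneg _)
      (mem_univ i)
    linarith
  have hprodP : ∏ i, (2 : ℝ) ^ e i = 2 ^ (∑ i, e i) := Finset.prod_pow_eq_pow_sum _ _ _
  have hs1' : (X : ℝ) ≤ 16 * 2 ^ (∑ i, e i) := by exact_mod_cast hs1
  have hs2' : (2 : ℝ) ^ (∑ i, e i) ≤ 1024 * X := by exact_mod_cast hs2
  set a : ℝ := L ^ B1 / 2 with ha
  set T : ℝ := 2 * (X : ℝ) ^ τ with hT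
  have ha0 : 0 < a := by positivity
  have hXτ1 : 1 ≤ (X : ℝ) ^ τ := Real.one_le_rpow hX1' (by linarith)
  have hT1 : 1 ≤ T := by rw [hT]; linarith
  have hT0 : 0 ≤ T := by linarith
  have hT60 : T ≤ 2 * z ^ 60 := by
    rw [hT, hzp]
    have : (X : ℝ) ^ τ ≤ (X : ℝ) ^ (((60 : ℕ) : ℝ) / 100) := by
      apply Real.rpow_le_rpow_of_exponent_le hX1'
      norm_num
      linarith
    linarith
  have hXτ : (X : ℝ) ^ τ * (X : ℝ) ^ (1 - τ) = X := by
    rw [← Real.rpow_add hXp]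
    norm_num
  have h40 : z ^ 40 ≤ (X : ℝ) ^ (1 - τ) := by
    rw [hzp]
    apply Real.rpow_le_rpow_of_exponent_le hX1'
    norm_num
    linarith
  have hTX : T ≤ X := by
    have : (2 : ℝ) ≤ (X : ℝ) ^ (1 - τ) := by
      refine le_trans ?_ h40
      calc (2 : ℝ) ≤ z := by linarith
        _ = z ^ 1 := (pow_one z).symm
        _ ≤ z ^ 40 := pow_le_pow_right₀ hz1 (by norm_num)
    calc T = (X : ℝ) ^ τ * 2 := by rw [hT]; ring
      _ ≤ (X : ℝ) ^ τ * (X : ℝ) ^ (1 - τ) := by gcongr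
      _ = X := hXτ
  have haB1' : L ^ B1' ≤ a := by
    rw [ha, le_div_iff₀ (by norm_num)]
    calc L ^ B1' * 2 ≤ L ^ B1' * L := by gcongr; linarith
      _ = L ^ (B1' + 1) := by rw [pow_succ]
      _ ≤ L ^ B1 := pow_le_pow_right₀ hL1 (by omega)
  have ha1 : 1 ≤ a := (one_le_pow₀ hL1).trans haB1'
  -- the set grows with the exponent
  have hsub : {t : ℝ | L ^ B1 / 2 ≤ |t| ∧ |t| ≤ 2 * (X : ℝ) ^ τ0} ⊆ tupR a T := by
    intro t ht
    refine ⟨ht.1, ht.2.trans ?_⟩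
    rw [hT]
    have := Real.rpow_le_rpow_of_exponent_le hX1' hτ0τ
    linarith
  have hcP : Continuous (fun t : ℝ => ‖PP8 χ e t‖ ^ 2) := by
    have : (fun t : ℝ => ‖PP8 χ e t‖ ^ 2) = fun t => ∏ i, ‖bk χ i (e i) t‖ ^ 2 :=
      funext fun t => su_PP χ e t
    rw [this]
    apply continuous_finsetProd
    intro i _
    exact (hcont _ _ _ _).norm.pow 2
  have hstep : ∫ t in {t : ℝ | L ^ B1 / 2 ≤ |t| ∧ |t| ≤ 2 * (X : ℝ) ^ τ0}, ‖PP8 χ e t‖ ^ 2 ≤
      ∫ t in tupR a T, ‖PP8 χ e t‖ ^ 2 :=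
    setIntegral_mono_set (tup_int _ hcP a T)
      (Filter.Eventually.of_forall fun t => by positivity) hsub.eventuallyLE
  refine hstep.trans ?_
  -- sup bound and mean value of seven factors
  have hW : ∀ (k : Fin 8) (t : ℝ), ∏ i ∈ univ.erase k, ‖bk χ i (e i) t‖ ^ 2 ≤ L ^ 42 := by
    intro k t
    calc ∏ i ∈ univ.erase k, ‖bk χ i (e i) t‖ ^ 2
        ≤ ∏ _i ∈ univ.erase k, L ^ 6 := by
          refine Finset.prod_le_prod (fun i _ => by positivity) (fun i _ => ?_)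
          have h5 : ‖bk χ i (e i) t‖ ≤ L ^ 3 := by
            refine (hbd q χ i (e i) t).trans ?_
            calc 4 * (1 + (e i : ℝ)) ≤ L * L ^ 2 := by
                  gcongr
                  · linarith
                  · exact hei i
              _ = L ^ 3 := by ring
          calc ‖bk χ i (e i) t‖ ^ 2 ≤ (L ^ 3) ^ 2 := by gcongr
            _ = L ^ 6 := by ring
      _ = L ^ 42 := by
          rw [Finset.prod_const, Finset.card_erase_of_mem (mem_univ k), Finset.card_univ,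
            Fintype.card_fin, ← pow_mul]
  have hM : ∀ k : Fin 8, ∫ t in (-T)..T, ∏ i ∈ univ.erase k, ‖bk χ i (e i) t‖ ^ 2 ≤
      L ^ (2 * C + 1) * (16 * T * 2 ^ e k / X + 1) := by
    intro k
    have hm := hC q χ e (univ.erase k) 0 T hT1
    rw [zero_sub, zero_add] at hm
    refine hm.trans ?_
    have h5 : (∑ i ∈ univ.erase k, e i) + e k = ∑ i, e i := Finset.sum_erase_add _ _ (mem_univ k)
    have h6 : T / 2 ^ (∑ i ∈ univ.erase k, e i) ≤ 16 * T * 2 ^ e k / X := by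
      rw [div_le_div_iff₀ (by positivity) hXp]
      calc T * X ≤ T * (16 * 2 ^ (∑ i, e i)) := by gcongr
        _ = 16 * T * 2 ^ e k * 2 ^ (∑ i ∈ univ.erase k, e i) := by
            rw [← h5, pow_add]; ring
    have h7 : 1 + ∑ i ∈ univ.erase k, (e i : ℝ) ≤ L ^ 2 := by
      refine le_trans ?_ hsum
      gcongr
      exact Finset.subset_univ _
    have h8 : (0 : ℝ) ≤ ∑ i ∈ univ.erase k, (e i : ℝ) :=
      Finset.sum_nonneg (fun i _ => Nat.cast_nonneg _)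
    calc (C : ℝ) * (T / 2 ^ (∑ i ∈ univ.erase k, e i) + 1) *
          (1 + ∑ i ∈ univ.erase k, (e i : ℝ)) ^ C
        ≤ L * (16 * T * 2 ^ e k / X + 1) * (L ^ 2) ^ C := by gcongr
      _ = L ^ (2 * C + 1) * (16 * T * 2 ^ e k / X + 1) := by
          rw [← pow_mul]; ring
  by_cases hcase : ∃ i : Fin 8, z ≤ 2 ^ e i ∧ (2 : ℝ) ^ e i ≤ (X : ℝ) ^ (1 - τ)
  · -- Case 1
    obtain ⟨k, hk1, hk2⟩ := hcase
    have hkX : 2 ^ e k ≤ X ^ 2 := by
      have hb : (2 : ℝ) ^ e k ≤ (X : ℝ) ^ 2 := by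
        calc (2 : ℝ) ^ e k ≤ (X : ℝ) ^ (1 - τ) := hk2
          _ ≤ (X : ℝ) ^ (2 : ℝ) := Real.rpow_le_rpow_of_exponent_le hX1' (by linarith)
          _ = (X : ℝ) ^ 2 := by norm_num
      exact_mod_cast hb
    have hδ : ∀ t, a ≤ |t| → |t| ≤ T →
        ‖bk χ k (e k) t‖ ^ 2 ≤ 0 * (1 / t ^ 2) + 1 / L ^ (2 * A1) := by
      intro t ht1 ht2
      have h5 := h2 X (by omega) q χ k (e k) t hq hk1 hkX (haB1'.trans ht1) (ht2.trans hTX)
      calc ‖bk χ k (e k) t‖ ^ 2 ≤ (1 / L ^ A1) ^ 2 := by gcongr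
        _ = 0 * (1 / t ^ 2) + 1 / L ^ (2 * A1) := by
            rw [div_pow, one_pow, ← pow_mul, mul_comm A1 2]; ring
    have hb := su_long χ e k hcont a T 0 (1 / L ^ (2 * A1)) (L ^ 42) _ ha0 hT0 le_rfl
      (by positivity) (by positivity) hδ (hW k) (hM k)
    refine hb.trans ?_
    have hTY : 16 * T * 2 ^ e k / X ≤ 32 := by
      rw [div_le_iff₀ hXp]
      calc 16 * T * 2 ^ e k ≤ 16 * T * (X : ℝ) ^ (1 - τ) := by gcongr
        _ = 32 * ((X : ℝ) ^ τ * (X : ℝ) ^ (1 - τ)) := by rw [hT]; ring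
        _ = 32 * X := by rw [hXτ]
    calc 0 * L ^ 42 * (8 / a) + 1 / L ^ (2 * A1) *
          (L ^ (2 * C + 1) * (16 * T * 2 ^ e k / X + 1))
        = 1 / L ^ (2 * A1) * (L ^ (2 * C + 1) * (16 * T * 2 ^ e k / X + 1)) := by ring
      _ ≤ 1 / L ^ (2 * A1) * (L ^ (2 * C + 1) * L) := by
          gcongr
          linarith
      _ = L ^ (2 * C + 2) / L ^ (2 * A1) := by ring
      _ ≤ 1 / L ^ A := tup_pow hL1 (by omega)
  · -- Case 2
    push Not at hcase
    obtain ⟨k, -, hk⟩ := Finset.exists_max_image univ e ⟨0, mem_univ 0⟩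
    have hd : ∀ i, (2 : ℝ) ^ e i < z ∨ z ^ 40 < (2 : ℝ) ^ e i := by
      intro i
      rcases lt_or_ge ((2 : ℝ) ^ e i) z with h | h
      · exact Or.inl h
      · exact Or.inr (h40.trans_lt (hcase i h))
    have hK45 : z ^ 45 ≤ (2 : ℝ) ^ e k := by
      refine su_comb (fun i => (2 : ℝ) ^ e i) z _ hz1024 (fun i => one_le_pow₀ (by norm_num)) hd
        (fun i => pow_le_pow_right₀ (by norm_num) (hk i (mem_univ i))) ?_ ?_
      · rw [hprodP, hzX]; exact hs1'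
      · rw [hprodP, hzX]; exact hs2'
    have hk4 : 4 ≤ (k : ℕ) := by
      by_contra hcon
      have h5 := he k (by omega)
      have h6 : (X : ℝ) ^ (1 / 4 : ℝ) = z ^ 25 := by
        rw [hzp]
        norm_num
      rw [h6] at h5
      have h7 : 4 * z ^ 25 < z ^ 45 := by
        calc 4 * z ^ 25 < z * z ^ 25 := by gcongr; linarith
          _ = z ^ 26 := by ring
          _ ≤ z ^ 45 := pow_le_pow_right₀ hz1 (by norm_num)
      linarith
    set K : ℝ := 2 ^ e k with hK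
    have hK0 : 0 < K := by positivity
    set Q : ℝ := 3 * (L ^ (2 * B + 3)) ^ 2 with hQ
    have hδ : ∀ t, a ≤ |t| → |t| ≤ T →
        ‖bk χ k (e k) t‖ ^ 2 ≤ Q * (1 / t ^ 2) + Q * (1 / K + T / K ^ 2) := by
      intro t ht1 ht2
      have ht10 : 1 ≤ |t| := ha1.trans ht1
      have h5 := h3 q χ k (e k) t hk4 ht10
      have h6 : ‖bk χ k (e k) t‖ ≤ L ^ (2 * B + 3) * (1 / t ^ 2 + 1 / √K + √|t| / K) := by
        refine h5.trans ?_
        have h7 : C3 * q ^ 2 * (1 + (e k : ℝ)) ≤ L ^ (2 * B + 3) := by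
          calc C3 * q ^ 2 * (1 + (e k : ℝ)) ≤ L * (L ^ B) ^ 2 * L ^ 2 := by
                gcongr
                exact hei k
            _ = L ^ (2 * B + 3) := by ring
        gcongr
      have h8 : ‖bk χ k (e k) t‖ ^ 2 ≤
          (L ^ (2 * B + 3)) ^ 2 * (1 / t ^ 2 + 1 / √K + √|t| / K) ^ 2 := by
        rw [← mul_pow]
        gcongr
      refine h8.trans ?_
      have h10 : (1 / √K) ^ 2 = 1 / K := by
        rw [div_pow, one_pow, Real.sq_sqrt hK0.le]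
      have h11 : (√|t| / K) ^ 2 ≤ T / K ^ 2 := by
        rw [div_pow, Real.sq_sqrt (abs_nonneg t)]
        gcongr
      have h12 : (1 / t ^ 2 + 1 / √K + √|t| / K) ^ 2 ≤
          3 * (1 / t ^ 2 + 1 / K + T / K ^ 2) := su_sq3 (su_inv ht10) h10 h11
      calc (L ^ (2 * B + 3)) ^ 2 * (1 / t ^ 2 + 1 / √K + √|t| / K) ^ 2
          ≤ (L ^ (2 * B + 3)) ^ 2 * (3 * (1 / t ^ 2 + 1 / K + T / K ^ 2)) := by gcongr
        _ = Q * (1 / t ^ 2) + Q * (1 / K + T / K ^ 2) := by rw [hQ]; ring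
    have hb := su_long χ e k hcont a T Q (Q * (1 / K + T / K ^ 2)) (L ^ 42) _ ha0 hT0
      (by positivity) (by positivity) (by positivity) hδ (hW k) (hM k)
    refine hb.trans ?_
    have hA1' : Q * L ^ 42 * (8 / a) ≤ 1 / L ^ A / 2 := by
      have h5 : Q * L ^ 42 * (8 / a) = 48 * L ^ (4 * B + 48) / L ^ B1 := by
        rw [ha, hQ]
        have : (8 : ℝ) / (L ^ B1 / 2) = 16 / L ^ B1 := by field_simp; norm_num
        rw [this]
        ring
      rw [h5]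
      calc 48 * L ^ (4 * B + 48) / L ^ B1 ≤ L * L ^ (4 * B + 48) / L ^ B1 := by
            gcongr
            linarith
        _ = L ^ (4 * B + 49) / L ^ B1 := by ring
        _ ≤ 1 / L ^ A / 2 := tup_half (by linarith) (by omega)
    have hsave := su_save z K T hz1024 hK45 hT0 hT60
    rw [hzX] at hsave
    have hA2' : Q * (1 / K + T / K ^ 2) * (L ^ (2 * C + 1) * (16 * T * K / X + 1)) ≤
        1 / L ^ A / 2 := by
      calc Q * (1 / K + T / K ^ 2) * (L ^ (2 * C + 1) * (16 * T * K / X + 1))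
          = Q * L ^ (2 * C + 1) * ((1 / K + T / K ^ 2) * (16 * T * K / X + 1)) := by ring
        _ ≤ Q * L ^ (2 * C + 1) * (99 / z) := by gcongr
        _ ≤ Q * L ^ (2 * C + 1) * (99 / L ^ (A + 4 * B + 2 * C + 20)) := by gcongr
        _ = 297 * L ^ (4 * B + 2 * C + 7) / L ^ (A + 4 * B + 2 * C + 20) := by
            rw [hQ]; ring
        _ ≤ L * L ^ (4 * B + 2 * C + 7) / L ^ (A + 4 * B + 2 * C + 20) := by
            gcongr
            linarith
        _ = L ^ (4 * B + 2 * C + 8) / L ^ (A + 4 * B + 2 * C + 20) := by ring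
        _ ≤ 1 / L ^ A / 2 := tup_half (by linarith) (by omega)
    linarith

end Pool.Agent.Helper61.SU
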